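import Mathlib
import Pool.Agent.H.MP_4cf087_an.A

set_option autoImplicit false

namespace Pool.Agent.Results.MP_4cf087_an.Char

open Set Filter Topology Pool.Agent.H.MP_df74ac_an Pool.Agent.H.MP_4cf087_an

theorem result (X : Type) [NormedAddCommGroup X] [NormedSpace ℝ X] [CompleteSpace X]
    [TopologicalSpace.SeparableSpace X] :
    (∃ N : X → ℝ, (∀ x y, N (x + y) ≤ N x + N y) ∧ (∀ (r : ℝ) x, N (r • x) = |r| * N x) ∧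
      (∃ c₁ c₂ : ℝ, 0 < c₁ ∧ 0 < c₂ ∧ ∀ x, c₁ * ‖x‖ ≤ N x ∧ N x ≤ c₂ * ‖x‖) ∧
      (∀ x, N x = 1 → ∃ L : X →L[ℝ] ℝ, ∀ v, HasDerivAt (fun t : ℝ => N (x + t • v)) (L v) 0) ∧
      ∀ x, N x = 1 → ¬ ∃ L : X →L[ℝ] ℝ, (∀ v, HasDerivAt (fun t : ℝ => N (x + t • v)) (L v) 0) ∧
        ∀ f : ℕ → X →L[ℝ] ℝ, (∀ n, IsLUB (f n '' {v | N v ≤ 1}) 1) →
          Tendsto (fun n => f n x) atTop (𝓝 1) →
            ∀ φ : (X →L[ℝ] ℝ) →L[ℝ] ℝ, Tendsto (fun n => φ (f n)) atTop (𝓝 (φ L))) ↔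
    ∃ C : Set (WeakDual ℝ X), C.Nonempty ∧ Convex ℝ C ∧ IsCompact C ∧
      ∀ c ∈ C, (∃ x ≠ 0, ∀ g ∈ C, g x ≤ c x) → ∃ φ : (X →L[ℝ] ℝ) →L[ℝ] ℝ,
        ¬ ContinuousWithinAt (fun g : WeakDual ℝ X => φ (WeakDual.toStrongDual g)) C c := by
  refine ⟨fun ⟨N, a, b, ⟨c, M, c0, M0, d⟩, e, k⟩ => ?_, fun ⟨C, c1, c2, c3, c4⟩ => ?_⟩
  swap
  · obtain ⟨N, c, M, H, k⟩ := build (C := C) c1 c2 c3 c4
    refine ⟨N, H.ad, H.sm, ⟨c, M, H.c0, H.M0, H.bd⟩, fun x hx => H.ga x ?_, fun x hx ⟨L, l1, l2⟩ => ?_⟩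
    · rintro rfl
      simpa [hx] using (H.bd 0).2.trans_lt (by simp : M * ‖(0 : X)‖ < 1)
    obtain ⟨f, f1, f2, φ, f3⟩ := k x hx L l1
    exact f3 (l2 f f1 f2 φ)
  have ps : ∀ x, x ≠ 0 → 0 < N x := fun x hx => (mul_pos c0 (norm_pos_iff.2 hx)).trans_le (d x).1
  have n1 : ∀ x, x ≠ 0 → N ((N x)⁻¹ • x) = 1 := fun x hx => by
    rw [b, abs_of_pos (inv_pos.2 (ps x hx)), inv_mul_cancel₀ (ps x hx).ne']
  have H : Nm N c M := ⟨a, b, c0, M0, d, fun x hx => by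
    obtain ⟨L, hL⟩ := e _ (n1 x hx)
    refine ⟨L, fun v => ?_⟩
    have p := ps x hx
    exact (((hL ((N x)⁻¹ • v)).const_mul (N x)).congr_deriv (by
      rw [map_smul, smul_eq_mul, mul_inv_cancel_left₀ p.ne'])).congr_of_eventuallyEq
        (Eventually.of_forall fun t => by
          beta_reduce
          rw [smul_comm t, ← smul_add, b, abs_of_pos (inv_pos.2 p), mul_inv_cancel_left₀ p.ne'])⟩
  have cp : WS {g : X →L[ℝ] ℝ | ∀ v, g v ≤ N v} := by simpa using H.ws 0 0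
  refine ⟨{g : X →L[ℝ] ℝ | ∀ v, g v ≤ N v}, ⟨0, H.nn⟩, fun f hf g hg s t hs ht st v => ?_, cp,
    fun z hz ⟨x, x0, hx⟩ => by_contra fun j => ?_⟩
  · obtain rfl : t = 1 - s := by linarith
    change s * f v + (1 - s) * g v ≤ N v
    exact (add_le_add (mul_le_mul_of_nonneg_left (hf v) hs) (mul_le_mul_of_nonneg_left (hg v)
      ht)).trans_eq (by ring)
  push Not at j
  obtain ⟨L, hL⟩ := e _ (n1 x x0)
  obtain ⟨g, g1, g2⟩ := H.sup.ex x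
  have p := ps x x0
  obtain rfl := Nm.un hL z hz (by
    rw [n1 x x0, map_smul, smul_eq_mul, inv_mul_eq_one₀ p.ne']
    exact (g2.ge.trans (hx g g1)).antisymm (hz x))
  refine k _ (n1 x x0) ⟨_, hL, fun f f1 f2 φ => ?_⟩
  have m : ∀ n, ∀ v, f n v ≤ N v := fun n v => by
    rcases eq_or_ne v 0 with rfl | v0
    · simpa using H.nn 0
    have := (f1 n).1 ⟨_, (n1 v v0).le, rfl⟩
    rwa [map_smul, smul_eq_mul, inv_mul_le_iff₀ (ps v v0), mul_one] at this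
  refine (j φ).tendsto.comp (tendsto_nhdsWithin_iff.2 ⟨tendsto_nhds.2 fun U u1 u2 => ?_,
    Eventually.of_forall m⟩)
  obtain ⟨τ, τ0, hτ⟩ := H.sup.slice cp (Nm.un hL) u1 u2
  exact (f2.eventually (lt_mem_nhds (sub_lt_self _ τ0))).mono fun n hn => hτ _ (m n) (n1 x x0 ▸ hn)

end Pool.Agent.Results.MP_4cf087_an.Char
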